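import Pool.Agent.Helper43K9.NA.Lattice

/-!
The number of the `A` whose lattice has a short vector, and the mean of the logarithm of the
length of the shortest vector.
-/

set_option autoImplicit false

namespace Pool.Agent.Helper43K9.NA

open Finset

lemma card_interval (g B K : ℕ) (hg : 0 < g) (S : Finset ℕ)
    (h : ∀ x ∈ S, (B : ℤ) ≤ g * (x : ℤ) + K ∧ g * (x : ℤ) ≤ B + K) :
    S.card ≤ 2 * K / g + 1 := by
  rcases S.eq_empty_or_nonempty with hS | hS
  · rw [hS, card_empty]
    exact Nat.zero_le _
  · have h1 := h _ (S.min'_mem hS)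
    have h2 := h _ (S.max'_mem hS)
    have h3 : S ⊆ Icc (S.min' hS) (S.max' hS) := by
      intro x hx
      rw [mem_Icc]
      exact ⟨S.min'_le x hx, S.le_max' x hx⟩
    have h4 := card_le_card h3
    rw [Nat.card_Icc] at h4
    have h5 : S.min' hS ≤ S.max' hS := S.min'_le _ (S.max'_mem hS)
    have h6 : g * (S.max' hS - S.min' hS) ≤ 2 * K := by
      have : ((g * (S.max' hS - S.min' hS) : ℕ) : ℤ) ≤ 2 * K := by
        push_cast [Nat.cast_sub h5]
        linarith [h1.1, h2.2]
      exact_mod_cast this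
    have h7 : S.max' hS - S.min' hS ≤ 2 * K / g := by
      rw [Nat.le_div_iff_mul_le hg, mul_comm]
      exact h6
    omega

open Classical in
/-- at most `3 M ^ 2` of the `A < Q` have a vector of size at most `M` -/
theorem card_short (Q M : ℕ) (hQ : 0 < Q) (hM : 1 ≤ M) :
    ((range Q).filter (fun A => Short Q A M)).card ≤ 3 * M ^ 2 := by
  by_cases hbig : Q ≤ 3 * M ^ 2
  · refine (card_filter_le _ _).trans ?_
    rw [card_range]
    exact hbig
  push Not at hbig
  have hMQ : M < Q := by nlinarith
  -- covering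
  let S1 : Finset ℕ := range (M + 1)
  let S2 : Finset ℕ := Ico (Q - M) Q
  let S3 : Finset ℕ := (Icc 2 M).biUnion (fun g => (Icc 1 (g - 1)).biUnion (fun j =>
    (range Q).filter (fun A : ℕ => ((j * Q : ℕ) : ℤ) ≤ g * (A : ℤ) + M ∧
      g * (A : ℤ) ≤ ((j * Q : ℕ) : ℤ) + M)))
  have hcov : (range Q).filter (fun A => Short Q A M) ⊆ S1 ∪ (S2 ∪ S3) := by
    intro A hA
    rw [mem_filter, mem_range] at hA
    obtain ⟨hAQ, hA⟩ := hA
    have hl := (lam_le_iff hQ).2 hA
    obtain ⟨f0, g0, h0, hf0, hg0, j0, hj0⟩ := lam_short Q A hQ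
    have hc0 := lam_coprime Q A hQ h0 hf0 hg0 hj0
    -- make `g` nonnegative
    obtain ⟨f, g, j, h0, hf, hg, hg', hj, hc⟩ : ∃ f g j : ℤ, (f ≠ 0 ∨ g ≠ 0) ∧
        |f| ≤ lam Q A ∧ 0 ≤ g ∧ g ≤ lam Q A ∧ g * A - f = Q * j ∧ IsCoprime g j := by
      rcases le_or_gt 0 g0 with h | h
      · exact ⟨f0, g0, j0, h0, hf0, h, (le_abs_self _).trans hg0, hj0, hc0⟩
      · refine ⟨-f0, -g0, -j0, by omega, by rw [abs_neg]; exact hf0, by omega,
          by rw [← abs_of_neg h]; exact hg0, by linear_combination -hj0, ?_⟩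
        rw [IsCoprime.neg_left_iff, IsCoprime.neg_right_iff]
        exact hc0
    have hlz : ((lam Q A : ℕ) : ℤ) ≤ M := by exact_mod_cast hl
    have hMQz : (M : ℤ) < Q := by exact_mod_cast hMQ
    have hAz : (A : ℤ) < Q := by exact_mod_cast hAQ
    have hA0 : (0 : ℤ) ≤ A := Int.natCast_nonneg A
    have hQz : (0 : ℤ) < Q := by exact_mod_cast hQ
    obtain ⟨hfl, hfu⟩ := abs_le.1 hf
    have hg0' : g ≠ 0 := by
      intro h
      rw [h, zero_mul, zero_sub] at hj
      rcases lt_trichotomy j 0 with hj1 | hj1 | hj1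
      · have : (Q : ℤ) * j ≤ Q * (-1) := mul_le_mul_of_nonneg_left (by omega) hQz.le
        linarith
      · rw [hj1, mul_zero] at hj
        rcases h0 with h0 | h0
        · exact h0 (by linarith)
        · exact h0 h
      · have : (Q : ℤ) * 1 ≤ Q * j := mul_le_mul_of_nonneg_left (by omega) hQz.le
        linarith
    have hgpos : 0 < g := lt_of_le_of_ne hg hg0'.symm
    -- bounds for `j`
    have hj0 : 0 ≤ j := by
      by_contra hcon
      have : (Q : ℤ) * j ≤ Q * (-1) := mul_le_mul_of_nonneg_left (by omega) hQz.le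
      have h2 : 0 ≤ g * (A : ℤ) := by positivity
      linarith
    have hjg : j ≤ g := by
      by_contra hcon
      have h1 : (Q : ℤ) * (g + 1) ≤ Q * j := mul_le_mul_of_nonneg_left (by omega) hQz.le
      have h2 : g * (A : ℤ) ≤ g * Q := mul_le_mul_of_nonneg_left hAz.le hg
      linarith
    rw [mem_union, mem_union]
    rcases eq_or_ne j 0 with hj1 | hj1
    · left
      rw [mem_range]
      rw [hj1, mul_zero] at hj
      have h1 : (A : ℤ) ≤ g * A := by
        have := mul_le_mul_of_nonneg_right (show (1 : ℤ) ≤ g by omega) hA0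
        linarith
      have : (A : ℤ) ≤ M := by linarith
      omega
    · rcases eq_or_ne j g with hj2 | hj2
      · right
        left
        rw [mem_Ico]
        refine ⟨?_, hAQ⟩
        rw [hj2] at hj
        have h1 : g * ((Q : ℤ) - A) = -f := by linear_combination -hj
        have h2 : (1 : ℤ) * (Q - A) ≤ g * (Q - A) :=
          mul_le_mul_of_nonneg_right (by omega) (by omega)
        have h3 : (Q : ℤ) - A ≤ M := by linarith
        omega
      · right
        right
        simp only [S3, mem_biUnion, mem_Icc, mem_filter, mem_range]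
        have hg2 : 2 ≤ g := by omega
        refine ⟨g.toNat, ⟨by omega, by omega⟩, j.toNat, ⟨by omega, by omega⟩, hAQ, ?_⟩
        have e1 : ((g.toNat : ℕ) : ℤ) = g := Int.toNat_of_nonneg hg
        have e2 : ((j.toNat : ℕ) : ℤ) = j := Int.toNat_of_nonneg hj0
        push_cast
        rw [e1, e2]
        constructor <;> linarith
  refine (card_le_card hcov).trans ?_
  refine (card_union_le _ _).trans ?_
  have c1 : S1.card = M + 1 := card_range _
  have c2 : S2.card ≤ M := by
    simp only [S2, Nat.card_Ico]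
    omega
  have c3 : S3.card ≤ (M - 1) * (3 * M - 1) := by
    refine card_biUnion_le.trans ?_
    have : ∀ g ∈ Icc 2 M, ((Icc 1 (g - 1)).biUnion (fun j =>
        (range Q).filter (fun A : ℕ => ((j * Q : ℕ) : ℤ) ≤ g * (A : ℤ) + M ∧
          g * (A : ℤ) ≤ ((j * Q : ℕ) : ℤ) + M))).card ≤ 3 * M - 1 := by
      intro g hg
      rw [mem_Icc] at hg
      refine card_biUnion_le.trans ?_
      have h1 : ∀ j ∈ Icc 1 (g - 1), ((range Q).filter (fun A : ℕ => ((j * Q : ℕ) : ℤ) ≤
          g * (A : ℤ) + M ∧ g * (A : ℤ) ≤ ((j * Q : ℕ) : ℤ) + M)).card ≤ 2 * M / g + 1 := by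
        intro j _
        apply card_interval g (j * Q) M (by omega)
        intro x hx
        rw [mem_filter] at hx
        exact hx.2
      refine (sum_le_sum h1).trans ?_
      rw [sum_const, Nat.card_Icc, smul_eq_mul]
      have h2 : g * (2 * M / g) ≤ 2 * M := Nat.mul_div_le _ _
      have h3 : (g - 1 + 1 - 1) * (2 * M / g + 1) = (g - 1) * (2 * M / g) + (g - 1) := by
        rw [Nat.add_sub_cancel]
        ring
      rw [h3]
      have h4 : (g - 1) * (2 * M / g) ≤ g * (2 * M / g) := Nat.mul_le_mul_right _ (by omega)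
      omega
    refine (sum_le_sum this).trans ?_
    rw [sum_const, Nat.card_Icc, smul_eq_mul]
    exact Nat.mul_le_mul_right _ (by omega)
  refine (Nat.add_le_add c1.le ((card_union_le _ _).trans (Nat.add_le_add c2 c3))).trans ?_
  obtain ⟨m, rfl⟩ : ∃ m, M = m + 1 := ⟨M - 1, by omega⟩
  have e1 : m + 1 - 1 = m := by omega
  have e2 : 3 * (m + 1) - 1 = 3 * m + 2 := by omega
  rw [e1, e2]
  nlinarith

/-- a function with few small values has a large product of values -/
theorem factorial_le_prod {ι : Type} [DecidableEq ι] (h : ι → ℕ) : ∀ (n : ℕ) (s : Finset ι),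
    s.card = n → (∀ m : ℕ, (s.filter (fun i => h i ≤ m)).card ≤ m) →
    n.factorial ≤ ∏ i ∈ s, h i := by
  intro n
  induction n with
  | zero =>
    intro s hs _
    rw [card_eq_zero] at hs
    rw [hs, prod_empty]
    exact le_rfl
  | succ n ih =>
    intro s hs hm
    obtain ⟨i, hi, hmax⟩ := exists_max_image s h (by rw [← card_pos]; omega)
    have h1 : n + 1 ≤ h i := by
      have := hm (h i)
      rw [filter_true_of_mem hmax, hs] at this
      exact this
    have h2 := ih (s.erase i) (by rw [card_erase_of_mem hi]; omega) (fun m => by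
      refine (card_le_card ?_).trans (hm m)
      exact filter_subset_filter _ (erase_subset _ _))
    rw [← mul_prod_erase s h hi, Nat.factorial_succ]
    exact Nat.mul_le_mul h1 h2

open Real in
/-- the mean of the logarithm of the length of the shortest vector -/
theorem sum_log_lam (Q : ℕ) (hQ : 0 < Q) :
    (Q : ℝ) * (log Q - 1 - log 3) ≤ ∑ A ∈ range Q, 2 * log (lam Q A) := by
  classical
  have h1 := factorial_le_prod (fun A => 3 * lam Q A ^ 2) Q (range Q) (card_range Q) (by
    intro m
    rcases lt_or_ge (m / 3) 1 with hm | hm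
    · have : (range Q).filter (fun A => 3 * lam Q A ^ 2 ≤ m) = ∅ := by
        rw [filter_eq_empty_iff]
        intro A _ h
        have h2 := lam_pos Q A hQ
        have h3 : 1 ≤ lam Q A ^ 2 := Nat.one_le_pow _ _ h2
        omega
      rw [this, card_empty]
      exact Nat.zero_le _
    · have h2 : 1 ≤ Nat.sqrt (m / 3) := by
        rw [Nat.le_sqrt]
        omega
      have h3 := card_short Q (Nat.sqrt (m / 3)) hQ h2
      have h4 : (range Q).filter (fun A => 3 * lam Q A ^ 2 ≤ m) ⊆
          (range Q).filter (fun A => Short Q A (Nat.sqrt (m / 3))) := by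
        intro A hA
        rw [mem_filter] at hA ⊢
        refine ⟨hA.1, (lam_le_iff hQ).1 ?_⟩
        rw [Nat.le_sqrt, Nat.le_div_iff_mul_le (by norm_num)]
        nlinarith [hA.2]
      refine (card_le_card h4).trans (h3.trans ?_)
      have h5 := Nat.sqrt_le' (m / 3)
      omega)
  have h2 : (Q : ℝ) ^ Q / Q.factorial ≤ exp Q := Real.pow_div_factorial_le_exp (Q : ℝ)
    (Nat.cast_nonneg _) Q
  have hf : (0 : ℝ) < Q.factorial := by exact_mod_cast Nat.factorial_pos Q
  have hQr : (0 : ℝ) < Q := by exact_mod_cast hQ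
  have h3 : (Q : ℝ) * log Q - Q ≤ log Q.factorial := by
    have := Real.log_le_log (by positivity) h2
    rw [Real.log_div (by positivity) hf.ne', Real.log_pow, Real.log_exp] at this
    linarith
  have h4 : log Q.factorial ≤ ∑ A ∈ range Q, (log 3 + 2 * log (lam Q A)) := by
    have h5 : (Q.factorial : ℝ) ≤ ((∏ A ∈ range Q, 3 * lam Q A ^ 2 : ℕ) : ℝ) := by
      exact_mod_cast h1
    have h6 := Real.log_le_log hf h5
    refine h6.trans (le_of_eq ?_)
    push_cast
    rw [Real.log_prod]
    · refine sum_congr rfl fun A _ => ?_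
      have := lam_pos Q A hQ
      have h7 : (lam Q A : ℝ) ≠ 0 := by exact_mod_cast this.ne'
      rw [Real.log_mul (by norm_num) (by positivity), Real.log_pow]
      norm_num
    · intro A _
      have := lam_pos Q A hQ
      have h7 : (lam Q A : ℝ) ≠ 0 := by exact_mod_cast this.ne'
      positivity
  rw [sum_add_distrib, sum_const, card_range, nsmul_eq_mul] at h4
  linarith

end Pool.Agent.Helper43K9.NA
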