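import Mathlib

/-!
Among `2 ^ r` consecutive terms of an arithmetic progression `u + k v` there is one which is prime to
`N`, if `N` has `r` prime factors and none of them divides both `u` and `v`.
-/

set_option autoImplicit false

namespace Pool.Agent.Helper43K9.NA

open Finset Polynomial

/-- an exponential sum with `m` terms which vanishes at `0, ..., m - 1` vanishes everywhere -/
theorem expsum_zero {ι : Type} (T : Finset ι) (c z : ι → ℂ)
    (h : ∀ k < T.card, ∑ s ∈ T, c s * z s ^ k = 0) (k : ℕ) : ∑ s ∈ T, c s * z s ^ k = 0 := by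
  classical
  rcases T.eq_empty_or_nonempty with hT | hT
  · rw [hT, sum_empty]
  let P : ℂ[X] := ∏ s ∈ T, (X - C (z s))
  have hP : P.Monic := monic_prod_of_monic _ _ fun s _ => monic_X_sub_C (z s)
  have hPd : P.natDegree = T.card := natDegree_prod_of_monic _ _ (fun s _ => monic_X_sub_C (z s)) |>.trans (by simp)
  have hR : ((X : ℂ[X]) ^ k %ₘ P).natDegree < T.card := by
    have h1 := natDegree_modByMonic_lt ((X : ℂ[X]) ^ k) hP (by
      intro h2
      have h3 : P.natDegree = 0 := by rw [h2]; simp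
      rw [hPd] at h3
      exact hT.card_pos.ne' h3)
    rwa [hPd] at h1
  have hev : ∀ s ∈ T, z s ^ k = ∑ j ∈ range T.card, ((X : ℂ[X]) ^ k %ₘ P).coeff j * z s ^ j := by
    intro s hs
    have h1 : (((X : ℂ[X]) ^ k %ₘ P) + P * ((X : ℂ[X]) ^ k /ₘ P)).eval (z s) = z s ^ k := by
      rw [modByMonic_add_div, eval_pow, eval_X]
    have h2 : P.eval (z s) = 0 := by
      simp only [P, eval_prod]
      apply prod_eq_zero hs
      simp
    rw [eval_add, eval_mul, h2, zero_mul, add_zero] at h1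
    rw [← h1, eval_eq_sum_range' hR]
  have h1 : ∑ s ∈ T, c s * z s ^ k =
      ∑ j ∈ range T.card, ((X : ℂ[X]) ^ k %ₘ P).coeff j * ∑ s ∈ T, c s * z s ^ j := by
    simp only [mul_sum]
    rw [sum_comm]
    refine sum_congr rfl fun s hs => ?_
    rw [hev s hs, mul_sum]
    refine sum_congr rfl fun j _ => ?_
    ring
  rw [h1]
  apply sum_eq_zero
  intro j hj
  rw [h j (mem_range.1 hj), mul_zero]

/-- `exp (2 π i x / p)` -/
noncomputable def ex (p : ℕ) (x : ℤ) : ℂ := Complex.exp (2 * Real.pi * Complex.I * ((x : ℂ) / p))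

lemma ex_eq_one_iff {p : ℕ} (hp : 0 < p) (x : ℤ) : ex p x = 1 ↔ (p : ℤ) ∣ x := by
  unfold ex
  rw [Complex.exp_eq_one_iff]
  have hpi : (2 * Real.pi * Complex.I : ℂ) ≠ 0 := Complex.two_pi_I_ne_zero
  have hp' : (p : ℂ) ≠ 0 := by exact_mod_cast hp.ne'
  constructor
  · rintro ⟨n, hn⟩
    refine ⟨n, ?_⟩
    have h1 : (x : ℂ) / p = n := by
      apply mul_left_cancel₀ hpi
      rw [hn]
      ring
    rw [div_eq_iff hp'] at h1
    have h2 : (x : ℂ) = ((p * n : ℤ) : ℂ) := by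
      push_cast
      rw [h1]
      ring
    exact_mod_cast h2
  · rintro ⟨n, rfl⟩
    refine ⟨n, ?_⟩
    push_cast
    field_simp

lemma ex_add (p : ℕ) (x y : ℤ) : ex p (x + y) = ex p x * ex p y := by
  unfold ex
  rw [← Complex.exp_add]
  congr 1
  push_cast
  ring

lemma ex_mul (p : ℕ) (k : ℕ) (x : ℤ) : ex p (k * x) = ex p x ^ k := by
  unfold ex
  rw [← Complex.exp_nat_mul]
  congr 1
  push_cast
  ring

theorem exists_coprime (N : ℕ) (hN : N ≠ 0) (u v : ℤ)
    (h : ∀ p : ℕ, p.Prime → p ∣ N → ¬ ((p : ℤ) ∣ u ∧ (p : ℤ) ∣ v)) :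
    ∃ k : ℕ, k < 2 ^ N.primeFactors.card ∧ ∀ p : ℕ, p.Prime → p ∣ N → ¬ (p : ℤ) ∣ u + k * v := by
  classical
  by_contra hcon
  push Not at hcon
  set P := N.primeFactors with hP
  have hmem : ∀ p, p ∈ P ↔ p.Prime ∧ p ∣ N := by
    intro p
    rw [hP, Nat.mem_primeFactors_of_ne_zero hN]
  -- the exponential sum
  let c : Finset ℕ → ℂ := fun S => ∏ p ∈ S, (-ex p u)
  let z : Finset ℕ → ℂ := fun S => ∏ p ∈ S, ex p v
  have hf : ∀ k : ℕ, ∏ p ∈ P, (1 - ex p (u + k * v)) = ∑ S ∈ P.powerset, c S * z S ^ k := by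
    intro k
    have h1 : ∏ p ∈ P, (1 - ex p (u + k * v)) = ∏ p ∈ P, ((-(ex p u * ex p v ^ k)) + 1) := by
      refine prod_congr rfl fun p _ => ?_
      rw [ex_add, ex_mul]
      ring
    rw [h1, Finset.prod_add]
    refine sum_congr rfl fun S _ => ?_
    simp only [prod_const_one, mul_one, c, z]
    rw [← Finset.prod_pow, ← Finset.prod_mul_distrib]
    refine prod_congr rfl fun p _ => ?_
    ring
  have hz : ∀ k : ℕ, ∏ p ∈ P, (1 - ex p (u + k * v)) = 0 := by
    intro k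
    rw [hf]
    apply expsum_zero
    intro k hk
    rw [card_powerset] at hk
    rw [← hf]
    obtain ⟨p, hp, hpN, hd⟩ := hcon k hk
    apply prod_eq_zero ((hmem p).2 ⟨hp, hpN⟩)
    rw [(ex_eq_one_iff hp.pos _).2 hd, sub_self]
  -- a good `k`
  let k₀ : ℕ := ∏ p ∈ P.filter (fun p : ℕ => ¬ (p : ℤ) ∣ u), p
  have h1 := hz k₀
  rw [prod_eq_zero_iff] at h1
  obtain ⟨p, hp, h2⟩ := h1
  rw [sub_eq_zero] at h2
  have hpp := (hmem p).1 hp
  have h3 := (ex_eq_one_iff hpp.1.pos _).1 h2.symm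
  by_cases hu : (p : ℤ) ∣ u
  · have h4 : (p : ℤ) ∣ k₀ * v := (dvd_add_right hu).1 h3
    have hpi : Prime (p : ℤ) := Nat.prime_iff_prime_int.1 hpp.1
    rcases hpi.dvd_or_dvd h4 with h5 | h5
    · have h6 : p ∣ k₀ := by exact_mod_cast h5
      rw [(Nat.prime_iff.1 hpp.1).dvd_finsetProd_iff] at h6
      obtain ⟨q, hq, hpq⟩ := h6
      rw [mem_filter, hmem] at hq
      have h7 : p = q := (Nat.prime_dvd_prime_iff_eq hpp.1 hq.1.1).1 hpq
      rw [← h7] at hq
      exact hq.2 hu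
    · exact h p hpp.1 hpp.2 ⟨hu, h5⟩
  · have h4 : (p : ℤ) ∣ k₀ := by
      have : p ∣ k₀ := Finset.dvd_prod_of_mem _ (by rw [mem_filter]; exact ⟨hp, hu⟩)
      exact_mod_cast this
    exact hu ((dvd_add_left (h4.mul_right v)).1 h3)

end Pool.Agent.Helper43K9.NA
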