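import Pool.Agent.Helper43K9.NA.Cover

/-!
Short vectors in the lattices `{(f, g) : f ≡ g A mod Q}`.
-/

set_option autoImplicit false

namespace Pool.Agent.Helper43K9.NA

open Finset

/-- the lattice of `A` has a nonzero vector of size at most `M` -/
def Short (Q A M : ℕ) : Prop :=
  ∃ f g : ℤ, (f ≠ 0 ∨ g ≠ 0) ∧ |f| ≤ M ∧ |g| ≤ M ∧ (Q : ℤ) ∣ g * A - f

/-- the lattice of `A` has a vector `(f, g)` of size at most `M` with `g` positive and prime to
`N` -/
def Good (N Q A M : ℕ) : Prop :=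
  ∃ f g : ℤ, 0 < g ∧ Int.gcd g N = 1 ∧ |f| ≤ M ∧ g ≤ M ∧ (Q : ℤ) ∣ g * A - f

lemma Good.short {N Q A M : ℕ} (h : Good N Q A M) : Short Q A M := by
  obtain ⟨f, g, h1, -, h3, h4, h5⟩ := h
  exact ⟨f, g, Or.inr h1.ne', h3, by rw [abs_of_pos h1]; exact h4, h5⟩

lemma Short.mono {Q A M M' : ℕ} (h : Short Q A M) (hM : M ≤ M') : Short Q A M' := by
  obtain ⟨f, g, h1, h3, h4, h5⟩ := h
  have : (M : ℤ) ≤ M' := by exact_mod_cast hM
  exact ⟨f, g, h1, h3.trans this, h4.trans this, h5⟩

/-- pigeonhole -/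
theorem short_sqrt (Q A : ℕ) (hQ : 0 < Q) : Short Q A (Nat.sqrt Q) := by
  classical
  set s := Nat.sqrt Q with hs
  have hlt : Q < (s + 1) * (s + 1) := Nat.lt_succ_sqrt Q
  have : NeZero Q := ⟨hQ.ne'⟩
  obtain ⟨x, hx, y, hy, hne, hxy⟩ := Finset.exists_ne_map_eq_of_card_lt_of_maps_to
    (s := range (s + 1) ×ˢ range (s + 1)) (t := (univ : Finset (ZMod Q)))
    (f := fun p => ((p.2 : ℕ) : ZMod Q) * (A : ZMod Q) - ((p.1 : ℕ) : ZMod Q)) (by
      rw [card_product, card_range, card_univ, ZMod.card]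
      exact hlt) (fun _ _ => mem_univ _)
  rw [mem_product, mem_range, mem_range] at hx hy
  refine ⟨(x.1 : ℤ) - y.1, (x.2 : ℤ) - y.2, ?_, ?_, ?_, ?_⟩
  · by_contra hcon
    push Not at hcon
    apply hne
    apply Prod.ext
    · have := hcon.1
      omega
    · have := hcon.2
      omega
  · rw [abs_le]
    constructor <;> omega
  · rw [abs_le]
    constructor <;> omega
  · rw [← ZMod.intCast_zmod_eq_zero_iff_dvd]
    push_cast
    linear_combination hxy

open Classical in
/-- the size of the shortest vector -/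
noncomputable def lam (Q A : ℕ) : ℕ := sInf {M | Short Q A M}

lemma lam_short (Q A : ℕ) (hQ : 0 < Q) : Short Q A (lam Q A) :=
  Nat.sInf_mem (s := {M | Short Q A M}) ⟨_, short_sqrt Q A hQ⟩

lemma lam_le {Q A M : ℕ} (h : Short Q A M) : lam Q A ≤ M := Nat.sInf_le h

lemma lam_le_iff {Q A M : ℕ} (hQ : 0 < Q) : lam Q A ≤ M ↔ Short Q A M :=
  ⟨fun h => (lam_short Q A hQ).mono h, lam_le⟩

lemma lam_sq_le (Q A : ℕ) (hQ : 0 < Q) : lam Q A * lam Q A ≤ Q :=
  (Nat.mul_le_mul (lam_le (short_sqrt Q A hQ)) (lam_le (short_sqrt Q A hQ))).trans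
    (Nat.sqrt_le Q)

lemma lam_pos (Q A : ℕ) (hQ : 0 < Q) : 0 < lam Q A := by
  rw [Nat.pos_iff_ne_zero]
  intro h
  obtain ⟨f, g, h1, h2, h3, -⟩ := lam_short Q A hQ
  rw [h] at h2 h3
  have h4 : f = 0 := by
    rw [← abs_nonpos_iff]
    exact_mod_cast h2
  have h5 : g = 0 := by
    rw [← abs_nonpos_iff]
    exact_mod_cast h3
  rcases h1 with h1 | h1
  · exact h1 h4
  · exact h1 h5

lemma exists_round (c f : ℤ) (hf : f ≠ 0) : ∃ t : ℤ, 2 * |c + t * f| ≤ |f| := by
  have h1 := Int.emod_nonneg c hf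
  have h2 := Int.emod_lt_abs c hf
  have h3 := Int.emod_add_mul_ediv c f
  by_cases h : 2 * (c % f) ≤ |f|
  · refine ⟨-(c / f), ?_⟩
    have : c + -(c / f) * f = c % f := by linear_combination -h3
    rw [this, abs_of_nonneg h1]
    exact h
  · rcases lt_or_gt_of_ne hf with hf' | hf'
    · refine ⟨-(c / f) + 1, ?_⟩
      have : c + (-(c / f) + 1) * f = c % f + f := by linear_combination -h3
      rw [this]
      rw [abs_of_neg hf'] at h2 h ⊢
      rw [abs_of_nonpos (by omega)]
      omega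
    · refine ⟨-(c / f) - 1, ?_⟩
      have : c + (-(c / f) - 1) * f = c % f - f := by linear_combination -h3
      rw [this]
      rw [abs_of_pos hf'] at h2 h ⊢
      rw [abs_of_nonpos (by omega)]
      omega

/-- a shortest vector is primitive -/
lemma lam_coprime (Q A : ℕ) (hQ : 0 < Q) {f g j : ℤ} (h0 : f ≠ 0 ∨ g ≠ 0) (hf : |f| ≤ lam Q A)
    (hg : |g| ≤ lam Q A) (hj : g * A - f = Q * j) : IsCoprime g j := by
  rw [Int.isCoprime_iff_gcd_eq_one]
  by_contra hcon
  have hpos := lam_pos Q A hQ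
  set d := Int.gcd g j with hd
  have hQ' : (Q : ℤ) ≠ 0 := by exact_mod_cast hQ.ne'
  have hd0 : d ≠ 0 := by
    intro h
    rw [h] at hd
    have h1 := Int.gcd_eq_zero_iff.1 hd.symm
    rw [h1.1, h1.2] at hj
    have : f = 0 := by linarith
    rcases h0 with h0 | h0
    · exact h0 this
    · exact h0 h1.1
  have hd2 : 2 ≤ d := by omega
  obtain ⟨g', hg'⟩ : (d : ℤ) ∣ g := Int.gcd_dvd_left ..
  obtain ⟨j', hj'⟩ : (d : ℤ) ∣ j := Int.gcd_dvd_right ..
  have hf' : f = d * (g' * A - Q * j') := by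
    rw [hg', hj'] at hj
    linear_combination -hj
  have hdz : (d : ℤ) ≠ 0 := by exact_mod_cast hd0
  have hdz2 : (2 : ℤ) ≤ d := by exact_mod_cast hd2
  have h1 : Short Q A (lam Q A / 2) := by
    refine ⟨g' * A - Q * j', g', ?_, ?_, ?_, ⟨j', by ring⟩⟩
    · rcases h0 with h0 | h0
      · left
        intro h
        rw [h, mul_zero] at hf'
        exact h0 hf'
      · right
        intro h
        rw [h, mul_zero] at hg'
        exact h0 hg'
    · rw [hf', abs_mul, abs_of_nonneg (by omega : (0 : ℤ) ≤ d)] at hf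
      have : 2 * |g' * (A : ℤ) - Q * j'| ≤ d * |g' * (A : ℤ) - Q * j'| :=
        mul_le_mul_of_nonneg_right hdz2 (abs_nonneg _)
      push_cast
      omega
    · rw [hg', abs_mul, abs_of_nonneg (by omega : (0 : ℤ) ≤ d)] at hg
      have : 2 * |g'| ≤ d * |g'| := mul_le_mul_of_nonneg_right hdz2 (abs_nonneg _)
      push_cast
      omega
  have h2 := lam_le h1
  omega

/-- there is a vector prime to `N` of size at most `(2 ^ r + 1 / 2) Q / lam` -/
theorem exists_good (N Q A : ℕ) (hN : 2 ≤ N) (hQ : 0 < Q) :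
    ∃ M, Good N Q A M ∧ 2 * M * lam Q A ≤ (2 ^ (N.primeFactors.card + 1) + 1) * Q := by
  obtain ⟨f, g, h0, hf, hg, hdvd⟩ := lam_short Q A hQ
  have hpos := lam_pos Q A hQ
  have hsq := lam_sq_le Q A hQ
  obtain ⟨j, hj⟩ := hdvd
  obtain ⟨a, b, hab⟩ := lam_coprime Q A hQ h0 hf hg hj
  set m := lam Q A with hm
  set r := N.primeFactors.card with hr
  -- the complementary vector `(c, d)`
  have hdet : f * (-b) - g * ((-b) * A - a * Q) = Q := by
    have : f = g * A - Q * j := by linarith
    rw [this]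
    linear_combination (Q : ℤ) * hab
  have hmax : |f| = m ∨ |g| = m := by
    by_contra hcon
    push Not at hcon
    have h1 : Short Q A (m - 1) := by
      refine ⟨f, g, h0, ?_, ?_, ⟨j, hj⟩⟩
      · have := hcon.1
        push_cast [Nat.cast_sub (show 1 ≤ m from hpos)]
        omega
      · have := hcon.2
        push_cast [Nat.cast_sub (show 1 ≤ m from hpos)]
        omega
    have h2 := lam_le h1
    omega
  have hQz : (0 : ℤ) < Q := by exact_mod_cast hQ
  have hmz : (0 : ℤ) < m := by exact_mod_cast hpos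
  obtain ⟨c, d, hcd, e, he, hc, hd, hcop⟩ : ∃ c d : ℤ, f * d - g * c = Q ∧ ∃ e : ℤ,
      d * A - c = Q * e ∧ 2 * m * |c| ≤ 2 * Q + m * m ∧ 2 * m * |d| ≤ 2 * Q + m * m ∧
      IsCoprime g d := by
    have hbase : ∀ t : ℤ, (f * (-b + t * g) - g * (((-b) * A - a * Q) + t * f) = Q) ∧
        (-b + t * g) * A - (((-b) * A - a * Q) + t * f) = Q * (a + t * j) ∧
        IsCoprime g (-b + t * g) := by
      intro t
      refine ⟨by linear_combination hdet, by linear_combination t * hj, ?_⟩
      rw [IsCoprime.add_mul_right_right_iff, IsCoprime.neg_right_iff]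
      exact ⟨a, j, by linear_combination hab⟩
    rcases hmax with h1 | h1
    · obtain ⟨t, ht⟩ := exists_round ((-b) * A - a * Q) f (by
        intro h; rw [h, abs_zero] at h1; omega)
      obtain ⟨k1, k2, k3⟩ := hbase t
      set c := ((-b) * A - a * Q) + t * f with hc
      set d := -b + t * g with hd
      refine ⟨c, d, k1, _, k2, ?_, ?_, k3⟩
      · have : m * (2 * |c|) ≤ m * m := mul_le_mul_of_nonneg_left (by rw [← h1]; exact ht) hmz.le
        linarith
      · have e1 : f * d = Q + g * c := by linarith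
        have e2 : |f| * |d| ≤ Q + |g| * |c| := by
          rw [← abs_mul, e1]
          refine (abs_add_le _ _).trans ?_
          rw [abs_mul, abs_of_pos hQz]
        have e3 : |g| * |c| ≤ m * |c| := mul_le_mul_of_nonneg_right hg (abs_nonneg _)
        have e4 : m * (2 * |c|) ≤ m * m :=
          mul_le_mul_of_nonneg_left (by rw [← h1]; exact ht) hmz.le
        rw [h1] at e2
        linarith
    · obtain ⟨t, ht⟩ := exists_round (-b) g (by
        intro h; rw [h, abs_zero] at h1; omega)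
      obtain ⟨k1, k2, k3⟩ := hbase t
      set c := ((-b) * A - a * Q) + t * f with hc
      set d := -b + t * g with hd
      refine ⟨c, d, k1, _, k2, ?_, ?_, k3⟩
      · have e1 : g * c = f * d - Q := by linarith
        have e2 : |g| * |c| ≤ |f| * |d| + Q := by
          rw [← abs_mul, e1]
          refine (abs_sub _ _).trans ?_
          rw [abs_mul, abs_of_pos hQz]
        have e3 : |f| * |d| ≤ m * |d| := mul_le_mul_of_nonneg_right hf (abs_nonneg _)
        have e4 : m * (2 * |d|) ≤ m * m :=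
          mul_le_mul_of_nonneg_left (by rw [← h1]; exact ht) hmz.le
        rw [h1] at e2
        linarith
      · have : m * (2 * |d|) ≤ m * m := mul_le_mul_of_nonneg_left (by rw [← h1]; exact ht) hmz.le
        linarith
  obtain ⟨k, hk, hkp⟩ := exists_coprime N (by omega) d g (by
    intro p hp _ h
    have h1 := hcop.isUnit_of_dvd' h.2 h.1
    have h2 := Int.isUnit_iff.1 h1
    have h3 := hp.two_le
    rcases h2 with h2 | h2 <;> omega)
  -- the good vector
  set u := c + k * f with hu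
  set v := d + k * g with hv
  have hv0 : v ≠ 0 := by
    intro h
    obtain ⟨p, hp, hpN⟩ := Nat.exists_prime_and_dvd (show N ≠ 1 by omega)
    apply hkp p hp hpN
    rw [h]
    exact dvd_zero _
  have hvN : Int.gcd v N = 1 := by
    by_contra hcon
    obtain ⟨p, hp, hpd⟩ := Nat.exists_prime_and_dvd hcon
    apply hkp p hp
    · have : (p : ℤ) ∣ N := (Int.natCast_dvd_natCast.2 hpd).trans (Int.gcd_dvd_right ..)
      exact_mod_cast this
    · exact (Int.natCast_dvd_natCast.2 hpd).trans (Int.gcd_dvd_left ..)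
  have hkz : (k : ℤ) + 1 ≤ 2 ^ r := by exact_mod_cast hk
  have hsqz : (m : ℤ) * m ≤ Q := by exact_mod_cast hsq
  have hfin : ∀ x y : ℤ, 2 * m * |x| ≤ 2 * Q + m * m → |y| ≤ m →
      2 * |x + k * y| * m ≤ (2 ^ (r + 1) + 1) * Q := by
    intro x y hx hy
    have e1 : |x + k * y| ≤ |x| + k * m := by
      refine (abs_add_le _ _).trans ?_
      rw [abs_mul, abs_of_nonneg (by positivity : (0 : ℤ) ≤ k)]
      have := mul_le_mul_of_nonneg_left hy (by positivity : (0 : ℤ) ≤ k)
      linarith
    have e2 : 2 * |x + k * y| * m ≤ 2 * (|x| + k * m) * m :=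
      mul_le_mul_of_nonneg_right (by linarith) hmz.le
    have e3 : (k : ℤ) * (m * m) ≤ (2 ^ r - 1) * (m * m) :=
      mul_le_mul_of_nonneg_right (by linarith) (by positivity)
    have e4 : (2 * (2 ^ r - 1) + 1) * ((m : ℤ) * m) ≤ (2 * (2 ^ r - 1) + 1) * Q := by
      apply mul_le_mul_of_nonneg_left hsqz
      have : (1 : ℤ) ≤ 2 ^ r := one_le_pow₀ (by norm_num)
      linarith
    have e5 : (2 ^ (r + 1) + 1 : ℤ) * Q = 2 * Q + (2 * (2 ^ r - 1) + 1) * Q := by ring
    rw [e5]
    nlinarith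
  refine ⟨max u.natAbs v.natAbs, ?_, ?_⟩
  · have hdv : (Q : ℤ) ∣ v * A - u := ⟨e + k * j, by
      rw [hu, hv]
      linear_combination he + k * hj⟩
    rcases lt_or_gt_of_ne hv0 with h | h
    · refine ⟨-u, -v, by omega, by rw [Int.neg_gcd]; exact hvN, ?_, ?_, ?_⟩
      · rw [abs_neg]
        push_cast
        exact le_max_left _ _
      · push_cast
        rw [← abs_of_neg h]
        exact le_max_right _ _
      · have : -v * (A : ℤ) - -u = -(v * A - u) := by ring
        rw [this]
        exact hdv.neg_right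
    · refine ⟨u, v, h, hvN, ?_, ?_, hdv⟩
      · push_cast
        exact le_max_left _ _
      · push_cast
        rw [abs_of_pos h]
        exact le_max_right _ _
  · have h1 := hfin c f hc hf
    have h2 := hfin d g hd hg
    have h3 : ((2 * max u.natAbs v.natAbs * m : ℕ) : ℤ) ≤ (2 ^ (r + 1) + 1) * Q := by
      push_cast
      rcases le_total |u| |v| with h | h
      · rw [max_eq_right h]
        exact h2
      · rw [max_eq_left h]
        exact h1
    exact_mod_cast h3

end Pool.Agent.Helper43K9.NA
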