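import Pool.Agent.Helper43K9.NA.Count

/-!
From vectors in the lattices to `N`-ary sequences.
-/

set_option autoImplicit false

namespace Pool.Agent.Helper43K9.NA

open Finset

/-- the smallest size of a vector prime to `N` -/
noncomputable def gd (N Q A : ℕ) : ℕ := sInf {M | Good N Q A M}

lemma Good.mono {N Q A M M' : ℕ} (h : Good N Q A M) (hM : M ≤ M') : Good N Q A M' := by
  obtain ⟨f, g, h1, h2, h3, h4, h5⟩ := h
  have : (M : ℤ) ≤ M' := by exact_mod_cast hM
  exact ⟨f, g, h1, h2, h3.trans this, h4.trans this, h5⟩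

lemma gd_good (N Q A : ℕ) (hN : 2 ≤ N) (hQ : 0 < Q) : Good N Q A (gd N Q A) := by
  obtain ⟨M, hM, -⟩ := exists_good N Q A hN hQ
  exact Nat.sInf_mem (s := {M | Good N Q A M}) ⟨M, hM⟩

lemma gd_le {N Q A M : ℕ} (h : Good N Q A M) : gd N Q A ≤ M := Nat.sInf_le h

lemma lam_le_gd (N Q A : ℕ) (hN : 2 ≤ N) (hQ : 0 < Q) : lam Q A ≤ gd N Q A :=
  lam_le (gd_good N Q A hN hQ).short

lemma gd_mul_lam (N Q A : ℕ) (hN : 2 ≤ N) (hQ : 0 < Q) :
    2 * gd N Q A * lam Q A ≤ (2 ^ (N.primeFactors.card + 1) + 1) * Q := by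
  obtain ⟨M, hM, hM2⟩ := exists_good N Q A hN hQ
  refine le_trans ?_ hM2
  exact Nat.mul_le_mul_right _ (Nat.mul_le_mul_left _ (gd_le hM))

open Real in
theorem sum_lower (N Q : ℕ) (hN : 2 ≤ N) (hQ : 0 < Q) :
    (Q : ℝ) * (log Q - 1 - log 3) ≤ ∑ A ∈ range Q, 2 * log (gd N Q A) := by
  refine (sum_log_lam Q hQ).trans (sum_le_sum fun A _ => ?_)
  have h1 := lam_pos Q A hQ
  have h2 := lam_le_gd N Q A hN hQ
  have h3 : log (lam Q A) ≤ log (gd N Q A) :=
    Real.log_le_log (by exact_mod_cast h1) (by exact_mod_cast h2)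
  linarith

open Real in
theorem sum_upper (N Q : ℕ) (hN : 2 ≤ N) (hQ : 0 < Q) :
    ∑ A ∈ range Q, 2 * log (gd N Q A) ≤
      (Q : ℝ) * (log Q + 1 + log 3 + 2 * log (2 ^ N.primeFactors.card + 1 / 2)) := by
  have hQr : (0 : ℝ) < Q := by exact_mod_cast hQ
  have h1 : ∀ A ∈ range Q, 2 * log (gd N Q A) ≤
      2 * log (2 ^ N.primeFactors.card + 1 / 2) + 2 * log Q - 2 * log (lam Q A) := by
    intro A _
    have h1 := lam_pos Q A hQ
    have h2 := lam_le_gd N Q A hN hQ
    have h3 := gd_mul_lam N Q A hN hQ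
    have h4 : (0 : ℝ) < lam Q A := by exact_mod_cast h1
    have h5 : (0 : ℝ) < gd N Q A := by exact_mod_cast h1.trans_le h2
    have h6 : (gd N Q A : ℝ) * lam Q A ≤ (2 ^ N.primeFactors.card + 1 / 2) * Q := by
      have : ((2 * gd N Q A * lam Q A : ℕ) : ℝ) ≤
          (((2 ^ (N.primeFactors.card + 1) + 1) * Q : ℕ) : ℝ) := by exact_mod_cast h3
      push_cast at this
      rw [pow_succ] at this
      linarith
    have h7 := Real.log_le_log (by positivity) h6
    rw [Real.log_mul h5.ne' h4.ne', Real.log_mul (by positivity) hQr.ne'] at h7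
    linarith
  refine (sum_le_sum h1).trans ?_
  rw [sum_sub_distrib, sum_const, card_range, nsmul_eq_mul]
  have h2 := sum_log_lam Q hQ
  linarith

/-- digits of a fraction -/
theorem exists_digits (N n : ℕ) (hN : 2 ≤ N) (a : Fin n → Fin N) (f g : ℤ)
    (hg : Int.gcd g N = 1)
    (h : ((N : ℤ) ^ n) ∣ g * ((∑ i : Fin n, (a i : ℕ) * N ^ (i : ℕ) : ℕ) : ℤ) - f) :
    ∃ b : ℕ → Fin N, (∀ i : Fin n, b i = a i) ∧
      ∀ m : ℕ, (N : ℤ) ^ m ∣ g * ∑ i ∈ range m, ((b i : ℕ) : ℤ) * (N : ℤ) ^ i - f := by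
  classical
  have hN0 : 0 < N := by omega
  have hcop : ∀ m : ℕ, IsCoprime ((N : ℤ) ^ m) g := by
    intro m
    apply IsCoprime.pow_left
    rw [Int.isCoprime_iff_gcd_eq_one, Int.gcd_comm]
    exact hg
  have hx : ∀ m : ℕ, ∃ x : ℕ, x < N ^ m ∧ (N : ℤ) ^ m ∣ g * x - f := by
    intro m
    obtain ⟨u, v, huv⟩ := hcop m
    have hpos : (0 : ℤ) < (N : ℤ) ^ m := by positivity
    refine ⟨((f * v) % ((N : ℤ) ^ m)).toNat, ?_, ?_⟩
    · have h1 := Int.emod_nonneg (f * v) hpos.ne'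
      have h2 := Int.emod_lt_of_pos (f * v) hpos
      have : ((((f * v) % ((N : ℤ) ^ m)).toNat : ℕ) : ℤ) < ((N ^ m : ℕ) : ℤ) := by
        rw [Int.toNat_of_nonneg h1]
        push_cast
        exact h2
      exact_mod_cast this
    · have h1 := Int.emod_nonneg (f * v) hpos.ne'
      rw [Int.toNat_of_nonneg h1]
      have h2 := Int.emod_add_mul_ediv (f * v) ((N : ℤ) ^ m)
      refine ⟨-(f * u) - g * (f * v / (N : ℤ) ^ m), ?_⟩
      linear_combination g * h2 + f * huv
  choose x hxlt hxd using hx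
  have huniq : ∀ m (y z : ℤ), (N : ℤ) ^ m ∣ g * y - f → (N : ℤ) ^ m ∣ g * z - f →
      (N : ℤ) ^ m ∣ y - z := by
    intro m y z h1 h2
    have h3 : (N : ℤ) ^ m ∣ g * (y - z) := by
      have := dvd_sub h1 h2
      have e : g * y - f - (g * z - f) = g * (y - z) := by ring
      rwa [e] at this
    exact (hcop m).dvd_of_dvd_mul_left h3
  have hmod : ∀ m, x (m + 1) % N ^ m = x m := by
    intro m
    have h1 : (N : ℤ) ^ m ∣ g * (x (m + 1)) - f := (pow_dvd_pow _ (Nat.le_succ m)).trans (hxd (m + 1))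
    have h2 := huniq m _ _ h1 (hxd m)
    have h3 : x (m + 1) ≡ x m [MOD N ^ m] := by
      rw [← Int.natCast_modEq_iff]
      apply Int.ModEq.symm
      rw [Int.modEq_iff_dvd]
      push_cast
      exact h2
    have h4 : x (m + 1) % N ^ m = x m % N ^ m := h3
    rw [h4, Nat.mod_eq_of_lt (hxlt m)]
  have hdig : ∀ i, x (i + 1) / N ^ i < N := by
    intro i
    rw [Nat.div_lt_iff_lt_mul (pow_pos hN0 i)]
    have := hxlt (i + 1)
    rw [pow_succ] at this
    rw [mul_comm]
    exact this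
  let b : ℕ → Fin N := fun i => if h : i < n then a ⟨i, h⟩ else ⟨x (i + 1) / N ^ i, hdig i⟩
  have hb1 : ∀ i (hi : i < n), b i = a ⟨i, hi⟩ := by
    intro i hi
    simp only [b]
    rw [dif_pos hi]
  have hb2 : ∀ i, n ≤ i → ((b i : Fin N) : ℕ) = x (i + 1) / N ^ i := by
    intro i hi
    simp only [b]
    rw [dif_neg (by omega)]
  refine ⟨b, fun i => hb1 i i.2, ?_⟩
  -- partial sums
  have hA : (∑ i : Fin n, (a i : ℕ) * N ^ (i : ℕ) : ℕ) = ∑ i ∈ range n, ((b i : Fin N) : ℕ) * N ^ i := by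
    rw [← Fin.sum_univ_eq_sum_range (fun i => ((b i : Fin N) : ℕ) * N ^ i) n]
    refine sum_congr rfl fun i _ => ?_
    rw [hb1 i i.2]
  have hAlt : (∑ i ∈ range n, ((b i : Fin N) : ℕ) * N ^ i) < N ^ n := by
    have : ∀ m, (∑ i ∈ range m, ((b i : Fin N) : ℕ) * N ^ i) < N ^ m := by
      intro m
      induction m with
      | zero => simp
      | succ m ih =>
        rw [sum_range_succ, pow_succ]
        have h1 : ((b m : Fin N) : ℕ) + 1 ≤ N := (b m).2
        have h2 : (((b m : Fin N) : ℕ) + 1) * N ^ m ≤ N * N ^ m := Nat.mul_le_mul_right _ h1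
        nlinarith
    exact this n
  rw [hA] at h
  have hbig : ∀ m, n ≤ m → (∑ i ∈ range m, ((b i : Fin N) : ℕ) * N ^ i) = x m := by
    intro m hm
    induction m, hm using Nat.le_induction with
    | base =>
      have h1 := huniq n _ _ h (hxd n)
      have h2 : (∑ i ∈ range n, ((b i : Fin N) : ℕ) * N ^ i) ≡ x n [MOD N ^ n] := by
        rw [← Int.natCast_modEq_iff]
        apply Int.ModEq.symm
        rw [Int.modEq_iff_dvd]
        push_cast
        push_cast at h1
        exact h1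
      have h3 : (∑ i ∈ range n, ((b i : Fin N) : ℕ) * N ^ i) % N ^ n = x n % N ^ n := h2
      rwa [Nat.mod_eq_of_lt hAlt, Nat.mod_eq_of_lt (hxlt n)] at h3
    | succ m hm ih =>
      rw [sum_range_succ, ih, hb2 m hm]
      have h1 := Nat.mod_add_div (x (m + 1)) (N ^ m)
      rw [hmod] at h1
      rw [mul_comm (x (m + 1) / N ^ m)]
      exact h1
  intro m
  have ecast : ∑ i ∈ range m, ((b i : ℕ) : ℤ) * (N : ℤ) ^ i =
      ((∑ i ∈ range m, ((b i : Fin N) : ℕ) * N ^ i : ℕ) : ℤ) := by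
    push_cast
    rfl
  rw [ecast]
  rcases le_total n m with hm | hm
  · rw [hbig m hm]
    exact hxd m
  · have h1 : (N : ℤ) ^ m ∣ g * ((∑ i ∈ range n, ((b i : Fin N) : ℕ) * N ^ i : ℕ) : ℤ) - f :=
      (pow_dvd_pow _ hm).trans h
    have h2 : (N ^ m) ∣ ∑ i ∈ Ico m n, ((b i : Fin N) : ℕ) * N ^ i := by
      apply dvd_sum
      intro i hi
      rw [mem_Ico] at hi
      exact (pow_dvd_pow _ hi.1).mul_left _
    have h3 : (∑ i ∈ range n, ((b i : Fin N) : ℕ) * N ^ i) =
        (∑ i ∈ range m, ((b i : Fin N) : ℕ) * N ^ i) +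
          ∑ i ∈ Ico m n, ((b i : Fin N) : ℕ) * N ^ i :=
      (sum_range_add_sum_Ico _ hm).symm
    rw [h3] at h1
    obtain ⟨w, hw⟩ := h2
    rw [hw] at h1
    obtain ⟨w', hw'⟩ := h1
    refine ⟨w' - g * w, ?_⟩
    push_cast at hw' ⊢
    linear_combination hw'

/-- the `N`-adic complexities of the extensions of `a`, in terms of vectors -/
theorem isLeast_gd (N n : ℕ) (hN : 2 ≤ N) (a : Fin n → Fin N) :
    IsLeast {x : ℝ | ∃ (b : ℕ → Fin N) (f g : ℤ), (∀ i : Fin n, b i = a i) ∧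
      0 < g ∧ Int.gcd f g = 1 ∧
      (∀ m : ℕ, (N : ℤ) ^ m ∣ g * ∑ i ∈ range m, ((b i : ℕ) : ℤ) * (N : ℤ) ^ i - f) ∧
      x = Real.logb N ((max |f| |g| : ℤ) : ℝ)}
      (Real.logb N (gd N (N ^ n) (∑ i : Fin n, (a i : ℕ) * N ^ (i : ℕ)))) := by
  have hQ : 0 < N ^ n := pow_pos (by omega) n
  set A := ∑ i : Fin n, (a i : ℕ) * N ^ (i : ℕ) with hA
  set G := gd N (N ^ n) A with hG
  have hGpos : 0 < G := (lam_pos (N ^ n) A hQ).trans_le (lam_le_gd N (N ^ n) A hN hQ)
  have hNr : (1 : ℝ) < N := by exact_mod_cast (show 1 < N by omega)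
  constructor
  · obtain ⟨f, g, h1, h2, h3, h4, h5⟩ := gd_good N (N ^ n) A hN hQ
    rw [← hG] at h3 h4
    -- lowest terms
    have hd0 : Int.gcd f g ≠ 0 := by
      intro h
      exact h1.ne' (Int.gcd_eq_zero_iff.1 h).2
    obtain ⟨f', hf'⟩ : ((Int.gcd f g : ℕ) : ℤ) ∣ f := Int.gcd_dvd_left ..
    obtain ⟨g', hg'⟩ : ((Int.gcd f g : ℕ) : ℤ) ∣ g := Int.gcd_dvd_right ..
    set d := Int.gcd f g with hd
    have hdz : (1 : ℤ) ≤ d := by
      have : 1 ≤ d := Nat.one_le_iff_ne_zero.2 hd0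
      exact_mod_cast this
    have hg'pos : 0 < g' := by
      by_contra hcon
      have : (d : ℤ) * g' ≤ 0 := mul_nonpos_of_nonneg_of_nonpos (by omega) (by omega)
      omega
    have hcop : Int.gcd f' g' = 1 := by
      have h6 : Int.gcd (d * f') (d * g') = d * Int.gcd f' g' := by
        rw [Int.gcd_mul_left, Int.natAbs_natCast]
      rw [← hf', ← hg', ← hd] at h6
      have h7 : d * Int.gcd f' g' = d * 1 := by omega
      exact Nat.eq_of_mul_eq_mul_left (Nat.pos_of_ne_zero hd0) h7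
    have hdN : IsCoprime (d : ℤ) N := by
      have : IsCoprime g (N : ℤ) := Int.isCoprime_iff_gcd_eq_one.2 h2
      rw [hg'] at this
      exact this.of_mul_left_left
    have hg'N : Int.gcd g' N = 1 := by
      have : IsCoprime g (N : ℤ) := Int.isCoprime_iff_gcd_eq_one.2 h2
      rw [hg'] at this
      exact Int.isCoprime_iff_gcd_eq_one.1 this.of_mul_left_right
    have hdvd : ((N ^ n : ℕ) : ℤ) ∣ g' * A - f' := by
      have h6 : ((N ^ n : ℕ) : ℤ) ∣ d * (g' * A - f') := by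
        have e : (d : ℤ) * (g' * A - f') = g * A - f := by
          rw [mul_sub, ← hf', ← mul_assoc, ← hg']
        rw [e]
        exact h5
      have h7 : IsCoprime ((N ^ n : ℕ) : ℤ) d := by
        push_cast
        exact hdN.symm.pow_left
      exact h7.dvd_of_dvd_mul_left h6
    have hf'le : |f'| ≤ |f| := by
      have e : |f| = d * |f'| := by
        conv_lhs => rw [hf']
        rw [abs_mul, abs_of_nonneg (by omega : (0 : ℤ) ≤ d)]
      rw [e]
      have := mul_le_mul_of_nonneg_right hdz (abs_nonneg f')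
      linarith
    have hg'le : g' ≤ g := by
      have := mul_le_mul_of_nonneg_right hdz hg'pos.le
      rw [one_mul] at this
      calc g' ≤ d * g' := this
        _ = g := hg'.symm
    obtain ⟨b, hb1, hb2⟩ := exists_digits N n hN a f' g' hg'N (by
      rw [← hA]
      push_cast at hdvd
      exact hdvd)
    refine ⟨b, f', g', hb1, hg'pos, hcop, hb2, ?_⟩
    congr 1
    have h8 : ((G : ℕ) : ℤ) = max |f'| |g'| := by
      rw [abs_of_pos hg'pos]
      apply le_antisymm
      · have h9 : Good N (N ^ n) A (max f'.natAbs g'.natAbs) := by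
          refine ⟨f', g', hg'pos, hg'N, ?_, ?_, hdvd⟩
          · push_cast
            exact le_max_left _ _
          · push_cast
            rw [abs_of_pos hg'pos]
            exact le_max_right _ _
        have h10 := gd_le h9
        have h11 : ((gd N (N ^ n) A : ℕ) : ℤ) ≤ ((max f'.natAbs g'.natAbs : ℕ) : ℤ) := by
          exact_mod_cast h10
        push_cast at h11
        rw [abs_of_pos hg'pos] at h11
        exact h11
      · apply max_le
        · exact hf'le.trans h3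
        · exact hg'le.trans h4
    rw [← h8]
    push_cast
    rfl
  · rintro x ⟨b, f, g, hb, hg, hfg, hrep, rfl⟩
    have hgN : Int.gcd g N = 1 := by
      by_contra hcon
      obtain ⟨p, hp, hpd⟩ := Nat.exists_prime_and_dvd hcon
      have h1 : (p : ℤ) ∣ g := (Int.natCast_dvd_natCast.2 hpd).trans (Int.gcd_dvd_left ..)
      have h2 : (p : ℤ) ∣ N := (Int.natCast_dvd_natCast.2 hpd).trans (Int.gcd_dvd_right ..)
      have h3 := hrep 1
      rw [pow_one] at h3
      have h4 : (p : ℤ) ∣ f := by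
        have h5 := h2.trans h3
        have h6 := dvd_sub (h1.mul_right (∑ i ∈ range 1, ((b i : ℕ) : ℤ) * (N : ℤ) ^ i)) h5
        rwa [sub_sub_cancel] at h6
      have h5 := Int.dvd_gcd h4 h1
      rw [hfg] at h5
      have h6 : p ∣ 1 := by exact_mod_cast h5
      exact hp.one_lt.ne' (Nat.dvd_one.1 h6)
    have h1 := hrep n
    have h2 : ∑ i ∈ range n, ((b i : ℕ) : ℤ) * (N : ℤ) ^ i = (A : ℤ) := by
      rw [hA, ← Fin.sum_univ_eq_sum_range (fun i => ((b i : ℕ) : ℤ) * (N : ℤ) ^ i) n]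
      push_cast
      refine sum_congr rfl fun i _ => ?_
      rw [hb i]
    rw [h2] at h1
    have h9 : Good N (N ^ n) A (max f.natAbs g.natAbs) := by
      refine ⟨f, g, hg, hgN, ?_, ?_, by push_cast; exact h1⟩
      · push_cast
        exact le_max_left _ _
      · push_cast
        rw [abs_of_pos hg]
        exact le_max_right _ _
    have h10 := gd_le h9
    apply Real.logb_le_logb_of_le hNr (by exact_mod_cast hGpos)
    have h11 : ((G : ℕ) : ℤ) ≤ max |f| |g| := by
      have : ((gd N (N ^ n) A : ℕ) : ℤ) ≤ ((max f.natAbs g.natAbs : ℕ) : ℤ) := by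
        exact_mod_cast h10
      push_cast at this
      exact this
    exact_mod_cast h11

end Pool.Agent.Helper43K9.NA
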